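import Mathlib

/-!
# There is no universal countable right-orderable group

For every set `T` of natural numbers we construct a two-generator right-orderable group `G_T`
with generators `a`, `b` such that `a` commutes with its conjugate by `b ^ (k + 1)` exactly
when `k` lies in `T`.  A countable group contains only countably many pairs of elements, so it
cannot contain a copy of every `G_T`.
-/

namespace Pool.Agent.Results.MP_49314d_al.NoUniversal

/-- A group is right-orderable if it admits a total order invariant under right translations. -/
def RightOrderable (G : Type*) [Group G] : Prop :=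
  ∃ _ : LinearOrder G, ∀ x y z : G, x ≤ y → x * z ≤ y * z

/-! ### Closure properties of right-orderability -/

theorem RightOrderable.of_injective {G H : Type*} [Group G] [Group H] (f : H →* G)
    (hf : Function.Injective f) (hG : RightOrderable G) : RightOrderable H := by
  obtain ⟨o, ho⟩ := hG
  refine ⟨LinearOrder.lift' f hf, fun x y z hxy => ?_⟩
  have h1 : f x ≤ f y := hxy
  have h2 := ho (f x) (f y) (f z) h1
  rw [← map_mul, ← map_mul] at h2
  exact h2

theorem rightOrderable_int : RightOrderable (Multiplicative ℤ) :=
  ⟨inferInstance, fun _ _ z hxy => mul_le_mul_left hxy z⟩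

theorem RightOrderable.semidirect {N Q : Type*} [Group N] [Group Q] (φ : Q →* MulAut N)
    (hN : RightOrderable N) (hQ : RightOrderable Q) : RightOrderable (N ⋊[φ] Q) := by
  obtain ⟨oN, hoN⟩ := hN
  obtain ⟨oQ, hoQ⟩ := hQ
  refine ⟨LinearOrder.lift' (fun g : N ⋊[φ] Q => toLex (g.right, g.left)) ?_, ?_⟩
  · intro g h hgh
    have h1 : (g.right, g.left) = (h.right, h.left) := toLex.injective hgh
    rw [Prod.mk.injEq] at h1
    exact SemidirectProduct.ext h1.2 h1.1
  · intro x y z hxy
    have h1 : toLex (x.right, x.left) ≤ toLex (y.right, y.left) := hxy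
    change toLex ((x * z).right, (x * z).left) ≤ toLex ((y * z).right, (y * z).left)
    rw [Prod.Lex.toLex_le_toLex] at h1 ⊢
    simp only [SemidirectProduct.mul_left, SemidirectProduct.mul_right]
    rcases h1 with h1 | ⟨h1, h2⟩
    · left
      refine lt_of_le_of_ne (hoQ _ _ _ h1.le) fun h => h1.ne ?_
      exact mul_right_cancel h
    · right
      simp only at h1 h2
      refine ⟨by rw [h1], ?_⟩
      rw [h1]
      exact hoN _ _ _ h2

theorem RightOrderable.pi {ι F : Type*} [Group F] (hF : RightOrderable F) :
    RightOrderable (ι → F) := by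
  obtain ⟨oF, hoF⟩ := hF
  let _ : LinearOrder ι := IsWellOrder.linearOrder WellOrderingRel
  have : WellFoundedLT ι := ⟨WellOrderingRel.isWellOrder.wf⟩
  refine ⟨LinearOrder.lift' (fun g : ι → F => toLex g) toLex.injective, ?_⟩
  intro x y z hxy
  have h1 : toLex x ≤ toLex y := hxy
  change toLex (x * z) ≤ toLex (y * z)
  rcases h1.eq_or_lt with h1 | h1
  · rw [toLex.injective h1]
  · apply le_of_lt
    obtain ⟨i, hi, hlt⟩ := h1
    refine ⟨i, fun j hj => ?_, ?_⟩
    · have := hi j hj
      simp only [Pi.toLex_apply, Pi.mul_apply] at this ⊢
      rw [this]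
    · simp only [Pi.toLex_apply, Pi.mul_apply] at hlt ⊢
      refine lt_of_le_of_ne (hoF _ _ _ hlt.le) fun h => hlt.ne ?_
      exact mul_right_cancel h

/-! ### A non-commutative right-orderable group: the Klein bottle group -/

/-- The infinite cyclic group acting on itself by inversion. -/
noncomputable def invAct : Multiplicative ℤ →* MulAut (Multiplicative ℤ) :=
  zpowersHom (MulAut (Multiplicative ℤ)) (MulEquiv.inv (Multiplicative ℤ))

/-- The Klein bottle group. -/
abbrev Klein : Type := Multiplicative ℤ ⋊[invAct] Multiplicative ℤ

theorem rightOrderable_klein : RightOrderable Klein :=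
  rightOrderable_int.semidirect invAct rightOrderable_int

/-- First generator of the Klein bottle group. -/
noncomputable def kx : Klein := SemidirectProduct.inl (Multiplicative.ofAdd 1)

/-- Second generator of the Klein bottle group. -/
noncomputable def ky : Klein := SemidirectProduct.inr (Multiplicative.ofAdd 1)

theorem kx_ky : ¬ Commute kx ky := by
  intro h
  have h1 : kx * ky = ky * kx := h
  have h2 := congrArg SemidirectProduct.left h1
  simp only [kx, ky, SemidirectProduct.mul_left, SemidirectProduct.left_inl,
    SemidirectProduct.right_inl, SemidirectProduct.left_inr, SemidirectProduct.right_inr,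
    map_one, mul_one, one_mul] at h2
  have h3 : invAct (Multiplicative.ofAdd 1) (Multiplicative.ofAdd (1 : ℤ))
      = (Multiplicative.ofAdd (1 : ℤ))⁻¹ := by
    simp [invAct]
  rw [h3] at h2
  have h4 : (1 : ℤ) = -1 := congrArg Multiplicative.toAdd h2
  omega

/-! ### The unrestricted wreath product -/

/-- The shift action of the infinite cyclic group on `ℤ → Klein`. -/
def shiftEquiv (n : ℤ) : (ℤ → Klein) ≃* (ℤ → Klein) where
  toFun x := fun i => x (i - n)
  invFun x := fun i => x (i + n)
  left_inv x := by funext i; simp
  right_inv x := by funext i; simp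
  map_mul' x y := rfl

/-- The shift action as a homomorphism. -/
def shiftAct : Multiplicative ℤ →* MulAut (ℤ → Klein) where
  toFun n := shiftEquiv n.toAdd
  map_one' := by
    ext x i
    all_goals simp [shiftEquiv]
  map_mul' m n := by
    ext x i
    all_goals simp [shiftEquiv, sub_sub]

/-- The unrestricted wreath product of the Klein bottle group with `ℤ`. -/
abbrev W : Type := (ℤ → Klein) ⋊[shiftAct] Multiplicative ℤ

theorem rightOrderable_W : RightOrderable W :=
  rightOrderable_klein.pi.semidirect shiftAct rightOrderable_int

open Classical in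
/-- The sequence coding a set `T`. -/
noncomputable def code (T : Set ℕ) : ℤ → Klein := fun i =>
  if i = 0 then kx else if 0 < i ∧ (i.toNat - 1) ∉ T then ky else 1

theorem code_comm (T : Set ℕ) (k : ℕ) :
    Commute (code T) (shiftAct (Multiplicative.ofAdd ((k : ℤ) + 1)) (code T)) ↔ k ∈ T := by
  have hsh : ∀ i : ℤ, (shiftAct (Multiplicative.ofAdd ((k : ℤ) + 1)) (code T)) i
      = code T (i - ((k : ℤ) + 1)) := fun i => rfl
  constructor
  · intro h
    by_contra hk
    have h1 : Commute (code T ((k : ℤ) + 1)) (code T 0) := by
      have h2 := congrFun h ((k : ℤ) + 1)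
      simp only [Pi.mul_apply, hsh, sub_self] at h2
      exact h2
    have h3 : code T 0 = kx := by simp [code]
    have h4 : code T ((k : ℤ) + 1) = ky := by
      have h5 : ((k : ℤ) + 1) ≠ 0 := by omega
      have h6 : (0 : ℤ) < (k : ℤ) + 1 := by omega
      have h7 : ((k : ℤ) + 1).toNat - 1 = k := by omega
      simp only [code, h5, if_false, h6, h7, true_and]
      simp [hk]
    rw [h3, h4] at h1
    exact kx_ky h1.symm
  · intro hk
    change code T * _ = _ * code T
    funext i
    simp only [Pi.mul_apply, hsh]
    change Commute (code T i) (code T (i - ((k : ℤ) + 1)))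
    rcases lt_trichotomy i 0 with hi | hi | hi
    · have h1 : code T i = 1 := by
        simp only [code, hi.ne, if_false, not_lt.mpr hi.le, false_and]
      rw [h1]
      exact Commute.one_left _
    · have h0 : i - ((k : ℤ) + 1) < 0 := by omega
      have h1 : code T (i - ((k : ℤ) + 1)) = 1 := by
        simp only [code, h0.ne, if_false, not_lt.mpr h0.le, false_and]
      rw [h1]
      exact Commute.one_right _
    · by_cases h0 : i - ((k : ℤ) + 1) = 0
      · have h1 : code T i = 1 := by
          have h7 : i.toNat - 1 = k := by omega
          have h8 : ¬ (0 < i ∧ i.toNat - 1 ∉ T) := by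
            rw [h7]
            exact fun h => h.2 hk
          simp only [code, hi.ne', if_false, h8]
        rw [h1]
        exact Commute.one_left _
      · have h1 : code T i = ky ∨ code T i = 1 := by
          simp only [code, hi.ne', if_false]
          split_ifs <;> simp
        have h2 : code T (i - ((k : ℤ) + 1)) = ky ∨ code T (i - ((k : ℤ) + 1)) = 1 := by
          simp only [code, h0, if_false]
          split_ifs <;> simp
        rcases h1 with h1 | h1 <;> rcases h2 with h2 | h2 <;> rw [h1, h2]
        exacts [Commute.one_right _, Commute.one_left _]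

/-- The generator coding `T`. -/
noncomputable def gA (T : Set ℕ) : W := SemidirectProduct.inl (code T)

/-- The shift generator. -/
noncomputable def gB : W := SemidirectProduct.inr (Multiplicative.ofAdd 1)

theorem gA_comm (T : Set ℕ) (k : ℕ) :
    Commute (gA T) (gB ^ (k + 1) * gA T * (gB ^ (k + 1))⁻¹) ↔ k ∈ T := by
  have h1 : gB ^ (k + 1) * gA T * (gB ^ (k + 1))⁻¹
      = SemidirectProduct.inl (shiftAct (Multiplicative.ofAdd ((k : ℤ) + 1)) (code T)) := by
    rw [SemidirectProduct.inl_aut]
    have h2 : gB ^ (k + 1) = SemidirectProduct.inr (Multiplicative.ofAdd ((k : ℤ) + 1)) := by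
      rw [gB, ← map_pow, ← ofAdd_nsmul]
      simp
    rw [h2, gA, map_inv]
  rw [h1, gA, ← code_comm T k]
  constructor
  · intro h
    have h3 := h.eq
    rw [← map_mul, ← map_mul] at h3
    exact SemidirectProduct.inl_injective h3
  · intro h
    exact h.map SemidirectProduct.inl

/-- The two-generator group attached to `T`. -/
abbrev GT (T : Set ℕ) : Type := Subgroup.closure ({gA T, gB} : Set W)

/-- The first generator of `GT T`. -/
noncomputable def a (T : Set ℕ) : GT T := ⟨gA T, Subgroup.subset_closure (by simp)⟩

/-- The second generator of `GT T`. -/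
noncomputable def b (T : Set ℕ) : GT T := ⟨gB, Subgroup.subset_closure (by simp)⟩

theorem closure_ab (T : Set ℕ) : Subgroup.closure ({a T, b T} : Set (GT T)) = ⊤ := by
  have h := Subgroup.closure_closure_coe_preimage (k := ({gA T, gB} : Set W))
  convert h using 2
  ext x
  simp only [Set.mem_insert_iff, Set.mem_singleton_iff, Set.mem_preimage, a, b]
  constructor
  · rintro (rfl | rfl)
    · exact Or.inl rfl
    · exact Or.inr rfl
  · rintro (h1 | h1)
    · exact Or.inl (Subtype.ext h1)
    · exact Or.inr (Subtype.ext h1)

theorem ab_comm (T : Set ℕ) (k : ℕ) :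
    Commute (a T) (b T ^ (k + 1) * a T * (b T ^ (k + 1))⁻¹) ↔ k ∈ T := by
  rw [← gA_comm T k]
  constructor
  · intro h
    exact h.map (Subgroup.subtype _)
  · intro h
    exact Subtype.ext h.eq

/-- For every countable group `U` there is a two-generator right-orderable group that is not
isomorphic to any subgroup of `U`. -/
theorem result (U : Type*) [Group U] [Countable U] :
    ∃ (G : Type) (_ : Group G), RightOrderable G ∧
      (∃ a b : G, Subgroup.closure {a, b} = ⊤) ∧
      ¬ ∃ f : G →* U, Function.Injective f := by
  by_contra hcon
  push Not at hcon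
  have hex : ∀ T : Set ℕ, ∃ f : GT T →* U, Function.Injective f := fun T =>
    hcon (GT T) inferInstance
      (rightOrderable_W.of_injective (Subgroup.subtype _) (Subgroup.subtype_injective _))
      ⟨a T, b T, closure_ab T⟩
  choose f hf using hex
  have hinj : Function.Injective fun T : Set ℕ => (f T (a T), f T (b T)) := by
    intro T T' hTT
    rw [Prod.mk.injEq] at hTT
    have key : ∀ (S : Set ℕ) (k : ℕ), k ∈ S ↔
        Commute (f S (a S)) (f S (b S) ^ (k + 1) * f S (a S) * (f S (b S) ^ (k + 1))⁻¹) := by
      intro S k
      rw [← ab_comm S k]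
      constructor
      · intro h
        have h1 := h.map (f S)
        simpa only [map_mul, map_pow, map_inv] using h1
      · intro h
        apply hf S
        simpa only [map_mul, map_pow, map_inv] using h.eq
    ext k
    rw [key T k, key T' k, hTT.1, hTT.2]
  obtain ⟨e, he⟩ := exists_injective_nat (U × U)
  exact Function.cantor_injective _ (he.comp hinj)

end Pool.Agent.Results.MP_49314d_al.NoUniversal
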